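import Pool.Agent.H32.TlA
import Pool.Agent.H32.TlB

namespace Pool.Agent.Results.MP_546eea_al.TreeLike

open Pool.Agent.H32.Tl Relation SimpleGraph

variable {M A : Type} [Monoid M] {inv : M → M} (I : IsInv inv) (a : A → M)
include I

theorem i1 (x : M) : x * inv x * x = x := ((I x _).2 rfl).1
theorem i2 (x : M) : inv x * x * inv x = inv x := ((I x _).2 rfl).2
theorem ii (x : M) : inv (inv x) = x := ((I _ x).1 ⟨i2 I x, i1 I x⟩).symm

theorem idem {e f : M} (he : e * e = e) (hf : f * f = f) : e * f * (e * f) = e * f := by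
  have he' : ∀ y, e * (e * y) = e * y := fun y => by rw [← mul_assoc, he]
  have hf' : ∀ y, f * (f * y) = f * y := fun y => by rw [← mul_assoc, hf]
  have a1 := i1 I (e * f)
  have a2 := i2 I (e * f)
  have a3 := ii I (e * f)
  have a4 := (I (e * f) (f * inv (e * f) * e)).1
  generalize inv (e * f) = x at *
  have a5 : ∀ y, x * (e * (f * (x * y))) = x * y := fun y => by
    simpa only [mul_assoc] using congrArg (· * y) a2
  have a6 := a4 ⟨by simpa only [mul_assoc, he', hf', hf] using a1,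
    by simp only [mul_assoc, he', hf', a5]⟩
  have a7 : x * x = x := by
    conv_lhs => rw [← a6]
    simp only [mul_assoc, a5]
    rw [← mul_assoc, a6]
  have := (I x x).1 ⟨by rw [a7, a7], by rw [a7, a7]⟩
  rw [a3] at this
  rw [← this, a7]

theorem comm {e f : M} (he : e * e = e) (hf : f * f = f) : e * f = f * e := by
  have he' : ∀ y, e * (e * y) = e * y := fun y => by rw [← mul_assoc, he]
  have hf' : ∀ y, f * (f * y) = f * y := fun y => by rw [← mul_assoc, hf]
  have a1 := idem I he hf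
  have a2 := idem I hf he
  rw [(I (e * f) (f * e)).1 ⟨by simpa only [mul_assoc, he', hf'] using a1,
    by simpa only [mul_assoc, he', hf'] using a2⟩]
  exact (I _ _).1 ⟨by rw [a1, a1], by rw [a1, a1]⟩

theorem cm (x y : M) : inv x * x * (y * inv y) = y * inv y * (inv x * x) :=
  comm I (by rw [← mul_assoc, i2 I]) (by rw [← mul_assoc, i1 I])

theorem k1 (x y : M) : x * y * (inv y * inv x) * x = x * y * inv y := by
  calc _ = x * (y * inv y * (inv x * x)) := by simp only [mul_assoc]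
    _ = _ := by rw [← cm I, ← mul_assoc, ← mul_assoc, ← mul_assoc, i1 I]

theorem k2 (x y : M) : x * y * (inv y * inv x) * (x * y) = x * y := by
  rw [← mul_assoc, k1 I, mul_assoc x, mul_assoc x, i1 I]

theorem inv_mul (x y : M) : inv (x * y) = inv y * inv x := by
  have := k2 I (inv y) (inv x)
  rw [ii I, ii I] at this
  exact ((I _ _).1 ⟨k2 I x y, this⟩).symm

theorem back {x s t : M} (h : x = x * s * t) : x * s * inv s = x := by
  rw [← k1 I]
  conv_lhs => rw [h, ← mul_assoc, ← h]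
  rw [k2 I, ← h]

omit I in
theorem ev_app (u v : List (A × Bool)) : ev inv a (u ++ v) = ev inv a u * ev inv a v := by
  simp [ev]

theorem ev_inv (u : List (A × Bool)) : ev inv a (FreeGroup.invRev u) = inv (ev inv a u) := by
  induction u with
  | nil => exact (I 1 1).1 (by simp)
  | cons l u ih =>
    rw [FreeGroup.invRev_cons, ev_app, ih, show l :: u = [l] ++ u from rfl, ev_app, inv_mul I]
    obtain ⟨x, _ | _⟩ := l <;> simp [ev, FreeGroup.invRev, ii I]

omit I in
theorem rt_iff (x y : M) : ReflTransGen (Edge inv a) x y ↔ ∃ m, y = x * ev inv a m := by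
  constructor
  · intro h
    induction h with
    | refl => exact ⟨[], by simp [ev]⟩
    | tail _ h ih =>
      obtain ⟨m, rfl⟩ := ih
      obtain ⟨l, rfl⟩ := h
      exact ⟨m ++ [l], by rw [ev_app, mul_assoc]⟩
  · rintro ⟨m, rfl⟩
    induction m using List.reverseRecOn with
    | nil => simp [ev, ReflTransGen.refl]
    | append_singleton m l ih => exact ih.tail ⟨l, by rw [ev_app, mul_assoc]⟩

variable {a} {w : List (A × Bool)}

omit I in
theorem pre {x : M} (hx : x ∈ Scc inv a w) (m m' : List (A × Bool))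
    (h : x * ev inv a (m ++ m') ∈ Scc inv a w) : x * ev inv a m ∈ Scc inv a w :=
  ⟨hx.1.trans ((rt_iff a _ _).2 ⟨m, rfl⟩),
    ((rt_iff a _ _).2 ⟨m', by rw [ev_app, mul_assoc]⟩).trans h.2⟩

omit I in
theorem walk (m : List (A × Bool)) : ∀ x y : Scc inv a w, y.1 = x.1 * ev inv a m →
    ∃ p : (SG inv a w).Walk x y, p.length ≤ m.length := by
  induction m with
  | nil =>
    intro x y h
    obtain rfl : y = x := Subtype.ext (by simpa [ev] using h)
    exact ⟨.nil, le_rfl⟩
  | cons l m ih =>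
    intro x y h
    obtain ⟨p, hp⟩ := ih ⟨_, pre x.2 [l] m (h ▸ y.2)⟩ y
      (h.trans (by rw [mul_assoc, ← ev_app]; rfl))
    by_cases e : x = ⟨_, pre x.2 [l] m (h ▸ y.2)⟩
    · exact ⟨p.copy e.symm rfl, by simp; omega⟩
    · exact ⟨.cons ⟨e, Or.inl ⟨l, rfl⟩⟩ p, by simpa using hp⟩

omit I in
theorem dle (m : List (A × Bool)) (x y : Scc inv a w) (h : y.1 = x.1 * ev inv a m) :
    (SG inv a w).dist x y ≤ m.length := by
  obtain ⟨p, hp⟩ := walk m x y h
  exact (dist_le p).trans hp

theorem bk {x : M} (hx : x ∈ Scc inv a w) {s : M} (h : x * s ∈ Scc inv a w) :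
    x * s * inv s = x := by
  obtain ⟨t, ht⟩ := (rt_iff a _ _).1 (h.2.trans hx.1)
  exact back I ht

theorem edge {x y : Scc inv a w} (h : (SG inv a w).Adj x y) : ∃ l, y.1 = x.1 * ev inv a [l] := by
  rcases h.2 with h | ⟨l, h⟩
  · exact h
  · refine ⟨(l.1, !l.2), ?_⟩
    rw [h, show [(l.1, !l.2)] = FreeGroup.invRev [l] from rfl, ev_inv I, bk I y.2 (h ▸ x.2)]

theorem word {x y : Scc inv a w} (p : (SG inv a w).Walk x y) :
    ∃ m, y.1 = x.1 * ev inv a m ∧ m.length = p.length := by
  induction p with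
  | nil => exact ⟨[], by simp [ev], rfl⟩
  | cons h _ ih =>
    obtain ⟨m, a1, a2⟩ := ih
    obtain ⟨l, hl⟩ := edge I h
    exact ⟨l :: m, by rw [a1, hl, mul_assoc, ← ev_app]; rfl, by simp [a2]⟩

theorem word2 (P : Scc inv a w → Prop) {x y : Scc inv a w}
    (h : ReflTransGen (fun u v => (SG inv a w).Adj u v ∧ P u ∧ P v) x y) (hx : P x) :
    ∃ m, y.1 = x.1 * ev inv a m ∧ ∀ m1 m2 (z : Scc inv a w), m = m1 ++ m2 →
      z.1 = x.1 * ev inv a m1 → P z := by
  induction h using ReflTransGen.head_induction_on with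
  | refl =>
    refine ⟨[], by simp [ev], fun m1 m2 z e h => ?_⟩
    obtain ⟨rfl, -⟩ := List.nil_eq_append_iff.1 e
    rwa [show z = y from Subtype.ext (by simpa [ev] using h)]
  | @head x c h _ ih =>
    obtain ⟨m, a1, a2⟩ := ih h.2.2
    obtain ⟨l, hl⟩ := edge I h.1
    refine ⟨l :: m, by rw [a1, hl, mul_assoc, ← ev_app]; rfl, fun m1 m2 z e h => ?_⟩
    rcases m1 with _ | ⟨l', m1⟩
    · rwa [show z = x from Subtype.ext (by simpa [ev] using h)]
    · cases e
      exact a2 m1 m2 z rfl (by rw [h, hl, mul_assoc, ← ev_app]; rfl)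

theorem lang (u : List (A × Bool)) :
    u ∈ Lang inv a w ↔ ev inv a w * inv (ev inv a w) * ev inv a u = ev inv a w := by
  refine ⟨?_, fun h => ⟨_, by rw [← mul_assoc, i1 I], h.symm⟩⟩
  rintro ⟨e, h1, h2⟩
  have : inv e = e := ((I e e).1 ⟨by rw [h1, h1], by rw [h1, h1]⟩).symm
  generalize ev inv a u = x at *
  rw [h2, inv_mul I, this, ← mul_assoc, mul_assoc e, mul_assoc e,
    comm I (e := x * inv x) (by rw [← mul_assoc, i1 I]) h1, ← mul_assoc, h1, mul_assoc, i1 I]

omit I in
theorem spl {α : Type} {p q r s : List α} (h : p ++ q = r ++ s) (l : p.length ≤ r.length) :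
    ∃ e, r = p ++ e ∧ q = e ++ s := by
  rcases List.append_eq_append_iff.1 h with h | ⟨e, rfl, rfl⟩
  · exact h
  · obtain rfl : e = [] := by simpa using l
    exact ⟨[], by simp, rfl⟩

omit I in
theorem result (M A : Type) [Monoid M] (inv : M → M) (I : IsInv inv) [Finite A] (a : A → M)
    (w : List (A × Bool)) (h : (Lang inv a w).IsContextFree) : QuasiTree (SG inv a w) := by
  obtain ⟨K, hK⟩ := tri h
  let o : Scc inv a w := ⟨ev inv a w * inv (ev inv a w),
    (rt_iff a _ _).2 ⟨_, by rw [ev_inv I]⟩, (rt_iff a _ _).2 ⟨w, (i1 I _).symm⟩⟩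
  have hc : (SG inv a w).Connected := by
    have : Nonempty (Scc inv a w) := ⟨o⟩
    refine ⟨fun x y => ?_⟩
    obtain ⟨m, hm⟩ := (rt_iff a _ _).1 (x.2.2.trans y.2.1)
    exact ⟨(walk m x y hm).choose⟩
  refine qt hc o (2 * w.length + 4 * K) fun u v e r => ?_
  have T := fun x y z => hc.dist_triangle (u := x) (v := y) (w := z)
  have T0 := T u o v
  rw [dist_comm (u := u) (v := o)] at T0
  by_cases h0 : (SG inv a w).dist o u = 0
  · omega
  obtain ⟨p1, q1⟩ := hc.exists_walk_length_eq_dist o u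
  obtain ⟨p2, q2⟩ := hc.exists_walk_length_eq_dist v o
  obtain ⟨g1, a1, a2⟩ := word I p1
  obtain ⟨g2, b1, b2⟩ := word I p2
  obtain ⟨p, c1, c2⟩ := word2 I (fun x => (SG inv a w).dist o u ≤ (SG inv a w).dist o x) r le_rfl
  rw [dist_comm, ← e] at q2
  have hl : ∀ u, u ∈ Lang inv a w ↔ o.1 * ev inv a u = ev inv a w := lang I
  have w0 : ev inv a w ∈ Scc inv a w := ⟨.refl, .refl⟩
  have hW : g1 ++ p ++ g2 ++ w ∈ Lang inv a w := by
    rw [hl]
    simp only [ev_app, ← mul_assoc, ← a1, ← c1, ← b1]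
    exact i1 I _
  obtain ⟨x, m1, m2, z, m', m1', e0, d1, d2, d3, d4, d5, d6, d7, d8⟩ := hK _ hW g1.length
    (g1.length + p.length) (by omega) (by omega) (by simp; omega)
  have pr : ∀ s t, s ++ t ∈ Lang inv a w → o.1 * ev inv a s ∈ Scc inv a w := fun s t h =>
    pre o.2 s t (((hl _).1 h).symm ▸ w0)
  have cd : ∀ s s' t, s ++ t ∈ Lang inv a w → s' ++ t ∈ Lang inv a w →
      o.1 * ev inv a s = o.1 * ev inv a s' := fun s s' t h h' => by
    have h1 := (hl _).1 h
    have h2 := (hl _).1 h'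
    rw [ev_app, ← mul_assoc] at h1 h2
    rw [← bk I (pr _ _ h) (h1 ▸ w0), ← bk I (pr _ _ h') (h2 ▸ w0), h1, h2]
  have hW' := e0 ▸ hW
  let xa : Scc inv a w := ⟨_, pr x (m1 ++ m2 ++ z) (by simpa using hW')⟩
  let xc : Scc inv a w := ⟨_, pr (x ++ m1) (m2 ++ z) (by simpa using hW')⟩
  let xb : Scc inv a w := ⟨_, pr (x ++ m1 ++ m2) z hW'⟩
  have f1 := dle m' xa xb ((cd _ _ _ hW' d7).trans (by rw [ev_app, ← mul_assoc]))
  have f2 := dle m1' xa xc ((cd _ (x ++ m1') (m2 ++ z) (by simpa using hW')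
    (by simpa using d8)).trans (by rw [ev_app, ← mul_assoc]))
  obtain ⟨x', e1, -⟩ := spl (p := x) (q := m1 ++ m2 ++ z) (r := g1) (s := p ++ g2 ++ w)
    (by simpa using e0.symm) d1.le
  have f3 := dle x o xa rfl
  have f4 := dle x' xa u (by rw [a1, e1, ev_app, ← mul_assoc])
  obtain ⟨y, e2, e3⟩ := spl (p := g1) (q := p ++ g2 ++ w) (r := x ++ m1) (s := m2 ++ z)
    (by simpa using e0) (by simpa using d2)
  obtain ⟨y', e4, -⟩ := spl (p := y) (q := m2 ++ z) (r := p) (s := g2 ++ w) (by simpa using e3.symm)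
    (by have := congrArg List.length e2; simp at this; omega)
  have f5 := c2 y y' xc e4 (by simp only [xc, e2, ev_app, a1, mul_assoc])
  obtain ⟨t, e5, e6⟩ := spl (p := g1 ++ p) (q := g2 ++ w) (r := x ++ m1 ++ m2) (s := z)
    (by simpa using e0) (by simp; omega)
  have f6 : xb.1 = v.1 * ev inv a t := by simp only [xb, e5, ev_app, c1, a1, mul_assoc]
  have f7 := dle t v xb f6
  have t1 := T o xa xc
  have t2 := T o xb xa
  have t3 := T u xa xb
  have t4 := T u xb v
  have l1 := congrArg List.length e1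
  rw [dist_comm (u := xb)] at t2 t4
  rw [dist_comm (u := u) (v := xa)] at t3
  rw [List.length_append] at l1
  rcases List.append_eq_append_iff.1 e6 with ⟨s, e7, e8⟩ | ⟨s, e7, -⟩
  · have := dle s o xb (by rw [f6, e7, ev_app, b1, mul_assoc])
    have := congrArg List.length e8
    rw [List.length_append] at this
    omega
  · have := dle s xb o (by rw [f6, b1, e7, ev_app, mul_assoc])
    rw [dist_comm] at this
    have := congrArg List.length e7
    rw [List.length_append] at this
    omega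

end Pool.Agent.Results.MP_546eea_al.TreeLike
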